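import Pool.Agent.Helper6.O3.St

/-!
# O3 MODULE PF: perfect sequences
-/

set_option autoImplicit false

namespace Pool.Agent.Helper84.O3

open Pool.Agent.Helper6.O3 Filter Topology
open Pool.Agent.Helper99.DF (T TL sq chk Cert ver StVER StTRA StCMP StSND StPR1 StPRC StVP)

lemma Th_pow (c : ℕ → ℝ) (p q r : ℝ) (h0 : c 0 = 0) (h1 : c 1 = 0)
    (h : ∀ m, ka p q r c m = 0) (j : ℕ) : Th c (j + 2) = c 2 ^ 3 * r ^ j := by
  induction j with
  | zero =>
    simp only [Th, show 0 + 2 - 1 = 1 by omega, show 0 + 2 - 2 = 0 by omega,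
      show 0 + 2 + 1 = 3 by omega, show 0 + 2 + 2 = 4 by omega, show 0 + 2 = 2 by omega, h0, h1]
    ring
  | succ j ih =>
    have e := Th_step p q r c (j + 2) (by omega) (h _) (h _)
    rw [h, zero_mul, add_zero, ih] at e
    rw [show j + 1 + 2 = j + 2 + 1 by omega, e]
    ring

theorem hPF : StPF := by
  intro c p q r h0 h1 h hr k
  rcases k with _ | _ | j
  · simp [T, h0]
  · simp [T, h0, h1]
  · rw [TT_eq c (j + 1 + 1) (by omega), show j + 1 + 1 = j + 2 by omega,
      Th_pow c p q r h0 h1 h j, pow_add]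
    field_simp

end Pool.Agent.Helper84.O3
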